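import Mathlib
import Pool.Agent.U297.LG.Mono

/-!
# The degree of the `γ`-polynomial and full subcomplexes

Let `S` be the flag complex of the finite graph `G`, a real homology manifold with the real homology of the
`(n-1)`-sphere (`HSph n G`), with `γ`-numbers `c_i`, `i ≤ n / 2`, and let `S'` be a full subcomplex of `S` which is
also such a sphere, of any dimension `m - 1`, with `γ`-numbers `b_i`; for example the link of a simplex, or a full
subcomplex which is a cycle, a join of cycles or a `3`-sphere.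

(1) Without any further hypothesis, in all dimensions: if `c_i = 0` for all `i ≥ 2` then `b_i = 0` for all `i ≥ 2`.
(2) Without any further hypothesis, `n ≥ 4`: if some full subcomplex `K` of `S` (a sphere or not) which is not a
simplex has `∑ (-1/2)^|T| > 0`, the sum over the simplices `T` of `K`, then `∑ C(i, 2) c_i / 4^i > 0`, so
`γ_2 > 0` if `c_i = 0` for `i ≥ 3`, and `4 γ_2 + 3 γ_3 > 0` in the dimensions five and six. For example this is so if the graph has an induced complete bipartite subgraph
`K_(3,3)`, or if two cycles of length at least five, all edges between them, form an induced subgraph.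
(3) Let the `ℓ²`-homology of the right-angled Coxeter groups of the links of dimension at most `2 l - 1` vanish above
the middle. If `c_i = 0` for all `i ≥ l` then `b_i = 0` for all `i ≥ l`; if `b_j ≠ 0` for some `j ≥ l` then
`∑ C(i, l) c_i / 4^i > 0`.
(4) So the degree of the `γ`-polynomial of `S'` is at most the degree of the one of `S` if `n ≤ 4`, or if the
`ℓ²`-homology of the groups of the full subcomplexes of all links of `S` vanishes above the middle, for example for
the class `AM n` of the starting library.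

Proof. If `∑ C(i, l) c_i / 4^i = 0`, then no special subgroup has `ℓ²`-homology in a degree `≥ l`
(`Pool.Agent.U297.LG.local_global`). On the other hand a link `L` in `S'` has nonzero `ℓ²`-homology in some degree at
least the degree of the `γ`-polynomial of `S'`; `L` is a full subcomplex of `S`. In (2), `χ(W_K) ≤ 0` if the
`ℓ²`-homology of `W_K` is concentrated in degree one.
-/

set_option autoImplicit false

namespace Pool.Agent.Results.MP_19e880_co.DegreeMonotone

open Pool.Agent.W907.SG Pool.Agent.W907.SM Pool.Agent.TH652.Above Pool.Agent.Y132.SI Pool.Agent.N13.EU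
open Pool.Agent.N13.PL Pool.Agent.U297.LG
open Polynomial (X C)

/-- `c 0, c 1, …, c (n / 2)` is the `γ`-vector of the flag complex of `G`, of dimension `n - 1`: the `f`-polynomial
`∑ X ^ |T|` (over all simplices `T`, the empty one included) is `∑ c i X ^ i (1 + X) ^ i (1 + 2 X) ^ (n - 2 i)`. -/
def IsGammaVector (n : ℕ) {V : Type} [Fintype V] (G : SimpleGraph V) (c : ℕ → ℚ) : Prop :=
  fpoly G = ∑ i ∈ Finset.range (n / 2 + 1), C (c i) * (X ^ i * (1 + X) ^ i * (1 + 2 * X) ^ (n - 2 * i))

/-- The `ℓ²`-homology of the right-angled Coxeter groups of the links `A` of the simplices `T` with at least `n - r`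
vertices (these links have dimension at most `r - 1`) vanishes above the middle. -/
def LinksVanish (r n : ℕ) {V : Type} [Fintype V] [LinearOrder V] (G : SimpleGraph V) : Prop :=
  ∀ T A : Finset V, G.IsClique (T : Set V) → (∀ v, v ∈ A ↔ ∀ t ∈ T, G.Adj v t) → n ≤ T.card + r →
    ∀ i : ℕ, n < 2 * i + T.card → L2Van (G.induce (A : Set V)) i

/-- `∑ C(i, l) c_i / 4^i`, `i ≤ n / 2` -/
noncomputable def taylor (n l : ℕ) (c : ℕ → ℚ) : ℚ :=
  ∑ i ∈ Finset.range (n / 2 + 1), (i.choose l : ℚ) * c i / 4 ^ i

theorem links_of {V : Type} [Fintype V] [LinearOrder V] {G : SimpleGraph V} {n r : ℕ} (h : LinksVanish r n G) :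
    LinksUpTo r n G := by
  classical
  intro T hT hr i hi
  obtain ⟨A, hA⟩ : ∃ A : Finset V, (A : Set V) = lk G T := ⟨(Set.toFinite (lk G T)).toFinset, by simp⟩
  have h1 := Pool.Agent.N13.EU.lv_of (h T A hT (fun v => by
    rw [← Finset.mem_coe, hA]
    rfl) hr i hi)
  rwa [hA] at h1

/-- **Result.** `H ↪g G` is an embedding of `H` as an induced subgraph, that is, of the flag complex of `H` as a full
subcomplex. (1), (2) no further hypothesis, (3) given the links of dimension at most `2 l - 1`, (4) monotonicity of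
the degree of the `γ`-polynomial; see the text above. -/
theorem result :
    (∀ (n m : ℕ) (V U : Type) [Fintype V] [LinearOrder V] [Fintype U] [LinearOrder U] (G : SimpleGraph V)
      (H : SimpleGraph U) (c b : ℕ → ℚ), HSph n G → HSph m H → IsGammaVector n G c → IsGammaVector m H b →
        Nonempty (H ↪g G) → (∀ i, 2 ≤ i → i ≤ n / 2 → c i = 0) → ∀ i, 2 ≤ i → i ≤ m / 2 → b i = 0) ∧
    (∀ (n : ℕ) (V : Type) [Fintype V] [LinearOrder V] (G : SimpleGraph V) (c : ℕ → ℚ), HSph n G →
      IsGammaVector n G c → 4 ≤ n →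
        ((∃ A : Finset V, ¬ G.IsClique (A : Set V) ∧
            0 < (fpoly (G.induce (A : Set V))).eval (-1 / 2 : ℚ)) ∨ Nonempty (K33 ↪g G)) →
          0 < taylor n 2 c ∧ ((∀ i, 3 ≤ i → i ≤ n / 2 → c i = 0) → 0 < c 2) ∧
          (6 ≤ n → (∀ i, 4 ≤ i → i ≤ n / 2 → c i = 0) → 0 < 4 * c 2 + 3 * c 3)) ∧
    (∀ (n m l : ℕ) (V U : Type) [Fintype V] [LinearOrder V] [Fintype U] [LinearOrder U] (G : SimpleGraph V)
      (H : SimpleGraph U) (c b : ℕ → ℚ), HSph n G → HSph m H → IsGammaVector n G c → IsGammaVector m H b →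
        Nonempty (H ↪g G) → 1 ≤ l → LinksVanish (2 * l) n G →
        ((∀ i, l ≤ i → i ≤ n / 2 → c i = 0) → ∀ i, l ≤ i → i ≤ m / 2 → b i = 0) ∧
        (2 * l ≤ n → (∃ j, l ≤ j ∧ j ≤ m / 2 ∧ b j ≠ 0) → 0 < taylor n l c)) ∧
    (∀ (n m : ℕ) (V U : Type) [Fintype V] [LinearOrder V] [Fintype U] [LinearOrder U] (G : SimpleGraph V)
      (H : SimpleGraph U) (c b : ℕ → ℚ), HSph n G → HSph m H → IsGammaVector n G c → IsGammaVector m H b →
        Nonempty (H ↪g G) → (Hered n G ∨ AM n G ∨ n ≤ 4) →
        ∀ j, 1 ≤ j → j ≤ m / 2 → b j ≠ 0 → ∃ i, j ≤ i ∧ i ≤ n / 2 ∧ c i ≠ 0) := by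
  refine ⟨?_, ?_, ?_, ?_⟩
  · rintro n m V U _ _ _ _ G H c b hS hH hc hb ⟨f⟩ h0
    exact mono_deg hS (by norm_num) (linksUpTo_four hS) hc h0 hH f hb
  · intro n V _ _ G c hS hc hn hyp
    have h1 : 0 < tau n 2 c := by
      rcases hyp with ⟨A, hA, hx⟩ | ⟨⟨f⟩⟩
      · exact chi_tau hS hn hc A hA hx
      · exact k33_tau hS hn hc f
    refine ⟨h1, fun h => ?_, fun hn6 h => ?_⟩
    · have h3 : tau n 2 c = c 2 / 4 ^ 2 := tau_lead (by omega) fun i hi hi' => h i (by omega) hi'
      rw [h3] at h1
      have : (0 : ℚ) < c 2 / 4 ^ 2 * 4 ^ 2 := by positivity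
      rwa [div_mul_cancel₀] at this
      norm_num
    · have h3 := tau_two_three hn6 h
      rw [h3] at h1
      linarith
  · rintro n m l V U _ _ _ _ G H c b hS hH hc hb ⟨f⟩ hl hL
    refine ⟨fun h0 => mono_deg hS hl (links_of hL) hc h0 hH f hb, ?_⟩
    rintro hn ⟨j, hj, hj', hne⟩
    exact mono_tau hS hl hn (links_of hL) hc hH f hb hj hj' hne
  · rintro n m V U _ _ _ _ G H c b hS hH hc hb ⟨f⟩ hyp j hj hj' hne
    have hHer : Hered n G := by
      rcases hyp with h | h | h
      · exact h
      · exact hered_AM h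
      · exact Pool.Agent.U297.GD.hered_four hS h
    by_contra hcon
    push Not at hcon
    exact hne (mono_deg hS hj (linksUpTo_of_hered hS hHer) hc (fun i h1 h2 => hcon i h1 h2) hH f hb j le_rfl hj')

end Pool.Agent.Results.MP_19e880_co.DegreeMonotone
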