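import Pool.Agent.U410.ES.TayE

/-!
# The Taylor coefficients at `1/4` of the `γ`-polynomial of flag spheres with small links

Let `S` be a flag homology sphere of dimension `n - 1`, the flag complex of the graph `G`, with the `γ`-vector `γ`.
For `l ≤ n / 2` put `τ_l = ∑ C(i, l) γ_i / 4^i`, so that `∑ γ_i s^i = ∑ τ_l (4 s - 1)^l`. All the inequalities
`τ_l ≥ 0` follow from Gal's conjecture, the last one is `γ_⌊n/2⌋ ≥ 0` (for even `n` the inequality of Charney and
Davis), and if all of them hold then `∑ γ_i s^i > 0` for all real `s ≥ 1/4`, that is, the `h`-polynomial has no zeros on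
the unit circle except for `-1`, and the last coefficient of the `γ`-polynomial which is not zero is positive.

We prove `τ_l ≥ 0` for the flag homology spheres of any dimension such that the links of all the faces with `n - 2 l`
vertices are in the class `Em` (`Pool/Agent/U410/ES/Em.lean`), and all the statements above if the vertex links are in
the class `Sm`, which is closed under links (`Pool/Agent/U410/ES/Sm.lean`). There is no bound for the number of vertices.
The class `Sm` contains the flag spheres of dimension at most three, the spheres of dimension `e - 1` with at most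
`3 e - 1` vertices, their joins, the spheres of odd dimension the vertex links of which are in the class, and the
spheres of even dimension the edge links of which are in the class if the non-neighbours of some vertex span a
tree. In the larger class `Em` the spheres of dimension `2 m + 1` need only one vertex with a link in the class in
every simplex with `m + 2` vertices.

For example, call the link `L` of a vertex of a flag homology 5-sphere small if it is a join, or has at most 14
vertices, or has a vertex `v` such that each triangle of `L` contains `v` or a neighbour of `v`. Then `γ_3 ≥ 0` if among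
any four pairwise adjacent vertices there is one with a small link.

Proof: by the library `ES` the members of `Em` are in the class `ER` of the starting library `N13.EU`, so the
`ℓ²`-homology of their right-angled Coxeter groups vanishes above the middle dimension, and by duality the sign of
the Euler characteristic is right; `τ_l` is a sum of these numbers over the links of the faces with `n - 2 l`
vertices.
-/

set_option autoImplicit false

namespace Pool.Agent.Results.MP_19e880_co.LocallySmall

open Pool.Agent.W907.SG Pool.Agent.W497.FS Pool.Agent.R781.CubeAQ Pool.Agent.R782.Bal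
open Pool.Agent.TH652.Above (HSph)
open Pool.Agent.U410.ES (Sm Em cd_linkE em_of_sm sm_links' np_of_hsph clique_iff lkF_empty0)

/-- `τ_l = ∑ C(i, l) γ_i / 4^i`, the sum over `0 ≤ i ≤ n / 2`. -/
def tau (n l : ℕ) (γ : ℕ → ℤ) : ℚ := ∑ i ∈ Finset.range (n / 2 + 1), (i.choose l : ℚ) * γ i / 4 ^ i

/-- the last coefficient -/
theorem tau_last {n g : ℕ} {γ : ℕ → ℤ} (hg : g ≤ n / 2) (h : ∀ i, g < i → i ≤ n / 2 → γ i = 0)
    (h0 : 0 ≤ tau n g γ) : 0 ≤ γ g := by
  rw [tau, Finset.sum_eq_single g] at h0
  · rw [Nat.choose_self, Nat.cast_one, one_mul] at h0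
    have h4 : (0 : ℚ) < 4 ^ g := by positivity
    have h5 : (0 : ℚ) ≤ γ g := by
      rw [le_div_iff₀ h4, zero_mul] at h0
      exact h0
    exact_mod_cast h5
  · intro i hi hig
    rw [Finset.mem_range] at hi
    rcases Nat.lt_or_ge i g with h1 | h1
    · rw [Nat.choose_eq_zero_of_lt h1]
      simp
    · rw [h i (by omega) (by omega)]
      simp
  · intro h1
    exact absurd (Finset.mem_range.mpr (by omega)) h1

/-- **The result.** Let `γ` be the `γ`-vector of the flag homology sphere `S` of dimension `n - 1` over the reals, the
flag complex of `G`. (1) `τ_l ≥ 0` if the links of all the faces of `S` with `n - 2 l` vertices are in the class `Em`,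
and for `n = 2 m` or `n = 2 m + 1` this says for `l = m` that `γ_m ≥ 0`. (2) If the links of all the vertices of `S` are
in the class `Sm` then all `τ_l` are nonnegative, `∑ γ_i s^i > 0` for all real `s ≥ 1/4`, and if `γ_g ≠ 0` and `γ_i = 0`
for all `i > g` then `γ_g > 0`. -/
theorem result : ∀ (n : ℕ) (V : Type) [Fintype V] [LinearOrder V] (G : SimpleGraph V), HSph n G →
    ∀ (N : ℕ) (φ : V ≃ Fin N) (γ : ℕ → ℤ), IsGamma n (fam φ G) γ →
    (∀ l, 2 * l ≤ n → (∀ T : Finset V, G.IsClique (T : Set V) → T.card + 2 * l = n →
      Em G (2 * l) (lkF G Finset.univ T)) → 0 ≤ tau n l γ ∧ (n ≤ 2 * l + 1 → 0 ≤ γ l)) ∧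
    ((∀ v : V, Sm G (n - 1) (lk G Finset.univ v)) →
      (∀ l, 2 * l ≤ n → 0 ≤ tau n l γ) ∧
      (∀ s : ℝ, 1 / 4 ≤ s → 0 < ∑ i ∈ Finset.range (n / 2 + 1), (γ i : ℝ) * s ^ i) ∧
      ∀ g, g ≤ n / 2 → γ g ≠ 0 → (∀ i, g < i → i ≤ n / 2 → γ i = 0) → 0 < γ g) := by
  intro n V _ _ G hS N φ γ hγ
  have h1 : ∀ l, 2 * l ≤ n → (∀ T : Finset V, G.IsClique (T : Set V) → T.card + 2 * l = n →
      Em G (2 * l) (lkF G Finset.univ T)) → 0 ≤ tau n l γ := fun l hl h =>
    taylor_nonneg hS hl (fun T hT hc => cd_linkE hS hT (by omega) (h T hT (by omega))) φ hγ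
  refine ⟨fun l hl h => ⟨h1 l hl h, fun hn => ?_⟩, ?_⟩
  · exact tau_last (by omega) (fun i hi hi' => absurd hi' (by omega)) (h1 l hl h)
  · intro h
    have h2 : ∀ l, 2 * l ≤ n → 0 ≤ tau n l γ := by
      intro l hl
      refine h1 l hl fun T hT hc => em_of_sm ?_
      rcases T.eq_empty_or_nonempty with h0 | h0
      · subst h0
        rw [Finset.card_empty, zero_add] at hc
        rw [lkF_empty0]
        rcases l with _ | k
        · have h3 := np_of_hsph hS
          rw [← hc] at h3
          exact Sm.low h3 (by omega)
        · have h3 := np_of_hsph hS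
          rw [← hc] at h3
          refine Sm.even (m := k) h3 fun v _ => ?_
          have h4 := h v
          rwa [show n - 1 = 2 * k + 1 by omega] at h4
      · exact sm_links' h T h0 (clique_iff.2 hT) (2 * l) (by omega)
    refine ⟨h2, fun s hs => gamma_eval_pos hS φ hγ (fun l hl => h2 l hl) s hs, ?_⟩
    intro g hg h0 hz
    have h3 := tau_last hg hz (h2 g (by omega))
    omega

end Pool.Agent.Results.MP_19e880_co.LocallySmall
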