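import Mathlib
import Pool.Agent.U297.LG.Small

/-!
# A linear inequality between the `γ`-numbers of all flag homology spheres, and its equality case

Let `S` be the flag complex of the finite graph `G`, and suppose that it is a real homology manifold with the real
homology of the `(n-1)`-sphere (`HSph n G`), with the `γ`-numbers `γ_i`, `i ≤ n / 2`. Put
`τ_l = ∑ C(i, l) γ_i / 4^i`, so that `∑ γ_i s^i = ∑ τ_l (4 s - 1)^l`.

Without any hypothesis on `S`, in all dimensions `≥ 3`: `τ_2 ≥ 0`, and `τ_2 = 0` if and only if `γ_i = 0` for all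
`i ≥ 2`. So `γ_2 ≥ 0` if `γ_i = 0` for all `i ≥ 3` (with the known `γ_0 = 1`, `γ_1 ≥ 0` this is Gal's conjecture for
all spheres with `γ`-polynomial of degree at most two, in any dimension), and `4 γ_2 + 3 γ_3 > 0`, or
`γ_2 = γ_3 = 0`, if `γ_i = 0` for all `i ≥ 4`, for instance for all spheres of dimension five and six: at most one of
Gal's inequalities fails there.

The same holds for `τ_l` if the `ℓ²`-homology of the right-angled Coxeter groups of the links of dimension at most
`2 l - 1` vanishes above the middle. The Charney-Davis conjecture in the dimension `2 l - 1` is equivalent to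
`τ_l ≥ 0` for all flag homology spheres of all dimensions, and to the positivity of the leading coefficient of all
`γ`-polynomials of degree `l`.

Proof. `(-1)^l 2^(n - 2 l) τ_l` is the sum of the Euler characteristics of the groups `W_lk T` over the simplices `T`
with `n - 2 l` vertices. If it is zero then all these Euler characteristics are zero, and by induction on the
dimension of the links (adding and deleting vertices, duality in the links) no group `W_A`, `A` a set of vertices of
a link of dimension `≥ 2 l - 1`, has `ℓ²`-homology in a degree `≥ l`. So the Euler characteristics of the `W_lk T`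
are zero for all `T` with at most `n - 2 l` vertices, and the `f`-polynomial has a zero of order greater than
`n - 2 l` at `-1/2`. For `l = 2` the hypothesis on the links is the theorem of Davis and Okun.
-/

set_option autoImplicit false

namespace Pool.Agent.Results.MP_19e880_co.SecondTaylorCoefficient

open Pool.Agent.W907.SG Pool.Agent.W907.SM Pool.Agent.TH652.Above Pool.Agent.Y132.SI Pool.Agent.N13.EU
open Pool.Agent.U297.LG
open Polynomial (X C)

/-- `c 0, c 1, …, c (n / 2)` is the `γ`-vector of the flag complex of `G`, of dimension `n - 1`: the `f`-polynomial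
`∑ X ^ |S|` (over all simplices `S`, the empty one included) is `∑ c i X ^ i (1 + X) ^ i (1 + 2 X) ^ (n - 2 i)`.
With `t = X / (1 + X)` this is `h(t) = ∑ c i t ^ i (1 + t) ^ (n - 2 i)`. -/
def IsGammaVector (n : ℕ) {V : Type} [Fintype V] (G : SimpleGraph V) (c : ℕ → ℚ) : Prop :=
  fpoly G = ∑ i ∈ Finset.range (n / 2 + 1), C (c i) * (X ^ i * (1 + X) ^ i * (1 + 2 * X) ^ (n - 2 * i))

/-- The `ℓ²`-homology of the right-angled Coxeter groups of the links `A` of the simplices `T` with at least `n - r`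
vertices (these links have dimension at most `r - 1`) vanishes above the middle. -/
def LinksVanish (r n : ℕ) {V : Type} [Fintype V] [LinearOrder V] (G : SimpleGraph V) : Prop :=
  ∀ T A : Finset V, G.IsClique (T : Set V) → (∀ v, v ∈ A ↔ ∀ t ∈ T, G.Adj v t) → n ≤ T.card + r →
    ∀ i : ℕ, n < 2 * i + T.card → L2Van (G.induce (A : Set V)) i

/-- `τ_l = ∑ C(i, l) c_i / 4^i`, `i ≤ n / 2` -/
noncomputable def taylor (n l : ℕ) (c : ℕ → ℚ) : ℚ :=
  ∑ i ∈ Finset.range (n / 2 + 1), (i.choose l : ℚ) * c i / 4 ^ i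

/-- The Charney-Davis conjecture in the dimension `2 l - 1`: `(-1)^l ∑ (-1/2)^|S| ≥ 0`. -/
def CharneyDavis (l : ℕ) : Prop :=
  ∀ (V : Type) [Fintype V] [LinearOrder V] (G : SimpleGraph V), HSph (2 * l) G →
    0 ≤ (-1 : ℚ) ^ l * (fpoly G).eval (-1 / 2)

/-- **Result.** (1) The `γ`-vector exists. (2) For all flag homology spheres of dimension `n - 1 ≥ 3`: `τ_2 ≥ 0` with
equality if and only if `γ_i = 0` for all `i ≥ 2`; `γ_2 ≥ 0` if `γ_i = 0` for `i ≥ 3`; `4 γ_2 + 3 γ_3 > 0` or
`γ_2 = γ_3 = 0` if `n ≥ 6` and `γ_i = 0` for `i ≥ 4`. (3) The same for `τ_l`, if the `ℓ²`-homology of the groups of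
the links of dimension at most `2 l - 1` vanishes above the middle; then `τ_l = 0` also if and only if no special
subgroup has `ℓ²`-homology in a degree `≥ l`. (4) Two conditions equivalent to the Charney-Davis conjecture in the
dimension `2 l - 1`. -/
theorem result :
    (∀ (n : ℕ) (V : Type) [Fintype V] [LinearOrder V] (G : SimpleGraph V), HSph n G →
      ∃ c : ℕ → ℚ, IsGammaVector n G c) ∧
    (∀ (n : ℕ) (V : Type) [Fintype V] [LinearOrder V] (G : SimpleGraph V) (c : ℕ → ℚ), HSph n G →
      IsGammaVector n G c → 4 ≤ n →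
        0 ≤ taylor n 2 c ∧ (taylor n 2 c = 0 ↔ ∀ i, 2 ≤ i → i ≤ n / 2 → c i = 0) ∧
        ((∀ i, 3 ≤ i → i ≤ n / 2 → c i = 0) → 0 ≤ c 2) ∧
        (6 ≤ n → (∀ i, 4 ≤ i → i ≤ n / 2 → c i = 0) → 0 < 4 * c 2 + 3 * c 3 ∨ (c 2 = 0 ∧ c 3 = 0))) ∧
    (∀ (n l : ℕ) (V : Type) [Fintype V] [LinearOrder V] (G : SimpleGraph V) (c : ℕ → ℚ), HSph n G →
      IsGammaVector n G c → 1 ≤ l → 2 * l ≤ n → LinksVanish (2 * l) n G →
        0 ≤ taylor n l c ∧ (taylor n l c = 0 ↔ ∀ i, l ≤ i → i ≤ n / 2 → c i = 0) ∧
        (taylor n l c = 0 ↔ ∀ (A : Finset V) (i : ℕ), l ≤ i → L2Van (G.induce (A : Set V)) i)) ∧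
    (∀ l : ℕ,
      (CharneyDavis l ↔ ∀ (n : ℕ) (V : Type) [Fintype V] [LinearOrder V] (G : SimpleGraph V) (c : ℕ → ℚ),
        HSph n G → IsGammaVector n G c → 2 * l ≤ n → 0 ≤ taylor n l c) ∧
      (CharneyDavis l ↔ ∀ (n : ℕ) (V : Type) [Fintype V] [LinearOrder V] (G : SimpleGraph V) (c : ℕ → ℚ),
        HSph n G → IsGammaVector n G c → 2 * l ≤ n → (∀ i, l < i → i ≤ n / 2 → c i = 0) → c l ≠ 0 →
          0 < c l)) := by
  refine ⟨?_, ?_, ?_, ?_⟩
  · intro n V _ _ G hS
    exact exists_gsum hS
  · intro n V _ _ G c hS hc hn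
    obtain ⟨h1, h2, -⟩ := tau_main (l := 2) hS (by norm_num) (by omega) (linksUpTo_four hS) hc
    refine ⟨h1, h2, fun h => ?_, fun hn6 h => ?_⟩
    · have h3 : tau n 2 c = c 2 / 4 ^ 2 := tau_lead (by omega) fun i hi hi' => h i (by omega) hi'
      rw [h3] at h1
      have : (0 : ℚ) ≤ c 2 / 4 ^ 2 * 4 ^ 2 := by positivity
      rwa [div_mul_cancel₀] at this
      norm_num
    · have h3 := tau_two_three hn6 h
      rcases h1.lt_or_eq with h4 | h4
      · left
        rw [h3] at h4
        linarith
      · right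
        have h5 := h2.1 h4.symm
        exact ⟨h5 2 le_rfl (by omega), h5 3 (by norm_num) (by omega)⟩
  · intro n l V _ _ G c hS hc hl hn hL
    refine tau_main hS hl hn (fun T hT hr i hi => ?_) hc
    obtain ⟨A, hA⟩ : ∃ A : Finset V, (A : Set V) = lk G T := ⟨(Set.toFinite (lk G T)).toFinset, by simp⟩
    have h1 := Pool.Agent.N13.EU.lv_of (hL T A hT (fun v => by
      rw [← Finset.mem_coe, hA]
      rfl) hr i hi)
    rwa [hA] at h1
  · intro l
    refine ⟨⟨fun h n V _ _ G c hS hc hn => tau_of_cd h hS hn hc, fun h => cd_of_lead ?_⟩,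
      ⟨fun h n V _ _ G c hS hc hn h0 hne => ?_, fun h => cd_of_lead ?_⟩⟩
    · intro V _ _ G c hS hc
      have h1 := h (2 * l) V G c hS hc le_rfl
      have h2 : taylor (2 * l) l c = c l / 4 ^ l := tau_lead (n := 2 * l) le_rfl fun i hi hi' => by omega
      rw [h2] at h1
      have h3 : (0 : ℚ) ≤ c l / 4 ^ l * 4 ^ l := by positivity
      rwa [div_mul_cancel₀ _ (pow_ne_zero _ (by norm_num))] at h3
    · have h1 := tau_of_cd h hS hn hc
      rw [tau_lead hn h0] at h1
      have h3 : (0 : ℚ) ≤ c l / 4 ^ l * 4 ^ l := by positivity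
      rw [div_mul_cancel₀ _ (pow_ne_zero _ (by norm_num))] at h3
      exact lt_of_le_of_ne h3 (Ne.symm hne)
    · intro V _ _ G c hS hc
      rcases eq_or_ne (c l) 0 with h0 | h0
      · exact h0.ge
      · exact (h (2 * l) V G c hS hc le_rfl (fun i hi hi' => by omega) h0).le

end Pool.Agent.Results.MP_19e880_co.SecondTaylorCoefficient
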