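import Mathlib
import Pool.Agent.U297.LG.Four

/-!
# Flag homology spheres the four-dimensional links of which have `γ_2 ≤ 4`

Let `S` be the flag complex of the finite graph `G`, a real homology manifold with the real homology of the
`(n-1)`-sphere (`HSph n G`), of dimension `n - 1 ≥ 5`, with `γ`-numbers `c_i`, `i ≤ n / 2`. Suppose that the links
of dimension four in `S` (the links of the simplices with `n - 5` vertices) have `γ_2 ≤ 4`, or, more generally, that
for each simplex `T` with `n - 5` vertices at most eight vertices `v` of its link have `χ(W_lk(T ∪ v)) ≠ 0`, that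
is, `γ_2(lk (T ∪ v)) ≠ 0`. There is no bound for the number of vertices of `S` or of the links.

Then `τ_3 = ∑ C(i, 3) c_i / 4^i ≥ 0`, and `τ_3 = 0` if and only if `c_i = 0` for all `i ≥ 3`, if and only if no
special subgroup of the right-angled Coxeter group has `ℓ²`-homology in a degree `≥ 3`. So `γ_3 ≥ 0` for these
spheres of dimension five and six (for the dimension five this is the conjecture of Charney and Davis), and
`γ_3 + γ_4 > 0` or `γ_3 = γ_4 = 0` in the dimensions seven and eight.

Proof. In a link `L` of dimension four the sum of the numbers `16 χ(W_lk(v)) = γ_2(lk v)` over the vertices is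
`2 γ_2(L) ≤ 8`, and these numbers are nonnegative integers (Davis and Okun), so at most eight of them are nonzero.
The group of a graph with at most eight vertices has no `ℓ²`-homology in a degree `≥ 3`, and adding the other
vertices of `L` does not change this. So the `ℓ²`-homology of the groups of the links of dimension at most five
vanishes above the middle, and `Pool.Agent.U297.LG.local_global` applies with `l = 3`.
-/

set_option autoImplicit false

namespace Pool.Agent.Results.MP_19e880_co.SmallFourDimensionalLinks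

open Pool.Agent.W907.SG Pool.Agent.W907.SM Pool.Agent.TH652.Above Pool.Agent.Y132.SI Pool.Agent.N13.EU
open Pool.Agent.R703.CW Pool.Agent.U297.LG
open Polynomial (X C)

/-- `c 0, c 1, …, c (n / 2)` is the `γ`-vector of the flag complex of `G`, of dimension `n - 1`: the `f`-polynomial
`∑ X ^ |T|` (over all simplices `T`, the empty one included) is `∑ c i X ^ i (1 + X) ^ i (1 + 2 X) ^ (n - 2 i)`. -/
def IsGammaVector (n : ℕ) {V : Type} [Fintype V] (G : SimpleGraph V) (c : ℕ → ℚ) : Prop :=
  fpoly G = ∑ i ∈ Finset.range (n / 2 + 1), C (c i) * (X ^ i * (1 + X) ^ i * (1 + 2 * X) ^ (n - 2 * i))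

/-- The links `A` of the simplices `T` with `n - 5` vertices (they have dimension four) have `γ_2 ≤ 4`. -/
def FourLinks (n : ℕ) {V : Type} [Fintype V] [LinearOrder V] (G : SimpleGraph V) : Prop :=
  ∀ T A : Finset V, G.IsClique (T : Set V) → (∀ v, v ∈ A ↔ ∀ t ∈ T, G.Adj v t) → T.card + 5 = n →
    ∀ c : ℕ → ℚ, IsGammaVector 5 (G.induce (A : Set V)) c → c 2 ≤ 4

/-- For the simplices `T` with `n - 5` vertices at most eight vertices `v` of the link of `T` have
`∑ (-1/2)^|S| ≠ 0`, the sum over the simplices `S` of the link of `T ∪ v`. -/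
def EightVertices (n : ℕ) {V : Type} [Fintype V] [LinearOrder V] (G : SimpleGraph V) : Prop :=
  ∀ T : Finset V, G.IsClique (T : Set V) → T.card + 5 = n →
    {v | (∀ t ∈ T, G.Adj v t) ∧ chiL G (insert v T) ≠ 0}.ncard ≤ 8

/-- `τ_l = ∑ C(i, l) c_i / 4^i`, `i ≤ n / 2` -/
noncomputable def taylor (n l : ℕ) (c : ℕ → ℚ) : ℚ :=
  ∑ i ∈ Finset.range (n / 2 + 1), (i.choose l : ℚ) * c i / 4 ^ i

theorem few_of {V : Type} [Fintype V] [LinearOrder V] {G : SimpleGraph V} {n : ℕ} (hS : HSph n G)
    (h : FourLinks n G ∨ EightVertices n G) : FewBad n G := by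
  classical
  rcases h with h | h
  · refine fewBad_of hS fun T hT hTn => ?_
    intro inst
    obtain ⟨A, hA⟩ : ∃ A : Finset V, (A : Set V) = lk G T := ⟨(Set.toFinite (lk G T)).toFinset, by simp⟩
    have hmem : ∀ v, v ∈ A ↔ ∀ t ∈ T, G.Adj v t := fun v => by
      rw [← Finset.mem_coe, hA]
      rfl
    have h1 : HSph (n - T.card) (G.induce (lk G T)) := hsph_link hS T hT
    rw [show n - T.card = 5 by omega] at h1
    obtain ⟨c, hc⟩ := exists_gsum h1
    refine ⟨c, hc, h T A hT hmem hTn c ?_⟩
    have key : ∀ (D : Set V) (hD : (A : Set V) = D) (i1 : Fintype ↥D),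
        fpoly (G.induce D) = Pool.Agent.U297.GD.gsum 5 (5 / 2 + 1) c → IsGammaVector 5 (G.induce (A : Set V)) c := by
      rintro D rfl i1 h2
      refine Eq.trans ?_ h2
      exact congrArg (fun i => @fpoly _ i (G.induce (A : Set V))) (Subsingleton.elim _ _)
    exact key _ hA inst hc
  · intro T hT hTn
    have h1 := h T hT hTn
    refine le_trans (le_of_eq ?_) h1
    congr 1

/-- **Result.** See the text above. -/
theorem result :
    (∀ (n : ℕ) (V : Type) [Fintype V] [LinearOrder V] (G : SimpleGraph V), HSph n G →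
      ∃ c : ℕ → ℚ, IsGammaVector n G c) ∧
    (∀ (n : ℕ) (V : Type) [Fintype V] [LinearOrder V] (G : SimpleGraph V) (c : ℕ → ℚ), HSph n G →
      IsGammaVector n G c → 6 ≤ n → (FourLinks n G ∨ EightVertices n G) →
        0 ≤ taylor n 3 c ∧
        (taylor n 3 c = 0 ↔ ∀ i, 3 ≤ i → i ≤ n / 2 → c i = 0) ∧
        (taylor n 3 c = 0 ↔ ∀ (A : Finset V) (i : ℕ), 3 ≤ i → L2Van (G.induce (A : Set V)) i) ∧
        ((∀ i, 4 ≤ i → i ≤ n / 2 → c i = 0) → 0 ≤ c 3) ∧
        (8 ≤ n → (∀ i, 5 ≤ i → i ≤ n / 2 → c i = 0) → 0 < c 3 + c 4 ∨ (c 3 = 0 ∧ c 4 = 0))) := by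
  refine ⟨fun n V _ _ G hS => exists_gsum hS, ?_⟩
  intro n V _ _ G c hS hc hn h
  obtain ⟨h1, h2, h3⟩ := tau_main (l := 3) hS (by norm_num) (by omega) (linksUpTo_six hS (few_of hS h)) hc
  refine ⟨h1, h2, h3, fun h0 => ?_, fun hn8 h0 => ?_⟩
  · have h4 : tau n 3 c = c 3 / 4 ^ 3 := tau_lead (by omega) fun i hi hi' => h0 i (by omega) hi'
    rw [h4] at h1
    have : (0 : ℚ) ≤ c 3 / 4 ^ 3 * 4 ^ 3 := by positivity
    rwa [div_mul_cancel₀] at this
    norm_num
  · have h4 := tau_three hn h0 (fun h8 => absurd h8 (by omega))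
    rcases h1.lt_or_eq with h5 | h5
    · left
      rw [h4] at h5
      linarith
    · right
      have h6 := h2.1 h5.symm
      exact ⟨h6 3 le_rfl (by omega), h6 4 (by norm_num) (by omega)⟩

end Pool.Agent.Results.MP_19e880_co.SmallFourDimensionalLinks
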